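import Pool.Agent.W819.EN.Stm2

/-!
# Extreme nesting: assembly of the almost sure theorem
-/

namespace Pool.Agent.W565.EN
open Pool.Agent.W819.EN
open H974 Finset Filter Topology MeasureTheory
open scoped Real

theorem few_mono (N : Finset Edg → Vtx → ℕ → ℕ → ℕ) (n : ℕ) {x y : ℝ} (h : x ≤ y)
    (ω : sqLattice.edgeSet → Bool) : few N n x ω ≤ few N n y ω := by
  unfold few
  apply Finset.card_le_card
  intro v hv
  rw [Finset.mem_filter] at hv ⊢
  exact ⟨hv.1, hv.2.trans h⟩

theorem many_anti (N : Finset Edg → Vtx → ℕ → ℕ → ℕ) (n : ℕ) {x y : ℝ} (h : x ≤ y)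
    (ω : sqLattice.edgeSet → Bool) : many N n y ω ≤ many N n x ω := by
  unfold many
  apply Finset.card_le_card
  intro v hv
  rw [Finset.mem_filter] at hv ⊢
  exact ⟨hv.1, h.trans hv.2⟩

theorem lim_log (c : ℕ → ℕ) (L : ℝ)
    (h1 : ∀ e : ℝ, 0 < e → ∀ᶠ n : ℕ in atTop, (n : ℝ) ^ (L - e) ≤ (c n : ℝ))
    (h2 : ∀ e : ℝ, 0 < e → ∀ᶠ n : ℕ in atTop, (c n : ℝ) ≤ (n : ℝ) ^ (L + e)) :
    Tendsto (fun n : ℕ => Real.log (c n : ℝ) / Real.log n) atTop (𝓝 L) := by
  rw [tendsto_order]
  constructor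
  · intro a ha
    have he : 0 < (L - a) / 2 := by linarith
    filter_upwards [h1 _ he, eventually_ge_atTop 2] with n hn hn2
    have hn2' : (2 : ℝ) ≤ n := by exact_mod_cast hn2
    have hlog : 0 < Real.log n := Real.log_pos (by linarith)
    have hpos : (0 : ℝ) < (n : ℝ) ^ (L - (L - a) / 2) := Real.rpow_pos_of_pos (by linarith) _
    have h3 := Real.log_le_log hpos hn
    rw [Real.log_rpow (by linarith)] at h3
    rw [lt_div_iff₀ hlog]
    nlinarith
  · intro a ha
    have he : 0 < (a - L) / 2 := by linarith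
    filter_upwards [h2 _ he, h1 1 one_pos, eventually_ge_atTop 2] with n hn hn1 hn2
    have hn2' : (2 : ℝ) ≤ n := by exact_mod_cast hn2
    have hlog : 0 < Real.log n := Real.log_pos (by linarith)
    have hpos : (0 : ℝ) < (n : ℝ) ^ (L - 1) := Real.rpow_pos_of_pos (by linarith) _
    have h3 := Real.log_le_log (lt_of_lt_of_le hpos hn1) hn
    rw [Real.log_rpow (by linarith)] at h3
    rw [div_lt_iff₀ hlog]
    nlinarith

theorem near (f : ℝ → ℝ) (hf : Continuous f) (s e : ℝ) (he : 0 < e) :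
    ∃ δ : ℝ, 0 < δ ∧ ∀ t, |t - s| < δ → |f t - f s| < e := by
  obtain ⟨δ, hδ, h⟩ := Metric.continuousAt_iff.1 (hf.continuousAt (x := s)) e he
  exact ⟨δ, hδ, fun t ht => by simpa [Real.dist_eq] using h (by simpa [Real.dist_eq] using ht)⟩

theorem t_FINC (hA : LegA) (hB : LegB) {N : Finset Edg → Vtx → ℕ → ℕ → ℕ} (_hG : Geo N)
    (hL : LoA N) (hU : UpA N) : Main (lay N) := by
  obtain ⟨ss, hss0, hss2⟩ := hB.gstar
  refine ⟨dL ss, ?_, ?_, ?_⟩
  · rw [← hA.typ]; exact hA.mono hss0
  · rw [hB.rate, hss2]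
  have L1 : ∀ᵐ ω ∂(bondLaw hlf), ∀ (s0 s1 e : ℚ), (s0 : ℝ) < s1 → (0 : ℝ) < e →
      gam s0 < 2 → ∀ᶠ n : ℕ in atTop,
        (n : ℝ) ^ (2 - gam s0 - e) ≤ (few N n (dL s1 * Real.log n) ω : ℝ) := by
    refine ae_all_iff.2 fun s0 => ae_all_iff.2 fun s1 => ae_all_iff.2 fun e =>
      ae_all_iff.2 fun h1 => ae_all_iff.2 fun h2 => ae_all_iff.2 fun h3 => ?_
    exact hL.1 s0 s1 e h1 h2 h3
  have L2 : ∀ᵐ ω ∂(bondLaw hlf), ∀ (s1 s0 e : ℚ), (s1 : ℝ) < s0 → (0 : ℝ) < e →
      gam s0 < 2 → ∀ᶠ n : ℕ in atTop,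
        (n : ℝ) ^ (2 - gam s0 - e) ≤ (many N n (dL s1 * Real.log n) ω : ℝ) := by
    refine ae_all_iff.2 fun s1 => ae_all_iff.2 fun s0 => ae_all_iff.2 fun e =>
      ae_all_iff.2 fun h1 => ae_all_iff.2 fun h2 => ae_all_iff.2 fun h3 => ?_
    exact hL.2 s1 s0 e h1 h2 h3
  have U1 : ∀ᵐ ω ∂(bondLaw hlf), ∀ (s e : ℚ), (s : ℝ) ≤ 0 → (0 : ℝ) < e →
      ∀ᶠ n : ℕ in atTop,
        (few N n (dL s * Real.log n) ω : ℝ) ≤ (n : ℝ) ^ (2 - gam s + e) := by
    refine ae_all_iff.2 fun s => ae_all_iff.2 fun e =>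
      ae_all_iff.2 fun h1 => ae_all_iff.2 fun h2 => ?_
    exact hU.1 s e h1 h2
  have U2 : ∀ᵐ ω ∂(bondLaw hlf), ∀ (s e : ℚ), (0 : ℝ) ≤ s → (0 : ℝ) < e →
      ∀ᶠ n : ℕ in atTop,
        (many N n (dL s * Real.log n) ω : ℝ) ≤ (n : ℝ) ^ (2 - gam s + e) := by
    refine ae_all_iff.2 fun s => ae_all_iff.2 fun e =>
      ae_all_iff.2 fun h1 => ae_all_iff.2 fun h2 => ?_
    exact hU.2 s e h1 h2
  filter_upwards [L1, L2, U1, U2] with ω l1 l2 u1 u2
  have lognn : ∀ n : ℕ, 1 ≤ n → 0 ≤ Real.log n := fun n hn =>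
    Real.log_nonneg (by exact_mod_cast hn)
  refine ⟨?_, ?_, ?_⟩
  · -- few
    intro ν hν0 hν
    obtain ⟨s, rfl⟩ := hB.surj ν hν0
    have hs : s < 0 := by
      rw [← hA.typ] at hν
      exact hA.mono.lt_iff_lt.1 hν
    rw [hB.rate]
    refine lim_log (fun n => few N n (dL s * Real.log n) ω) _ ?_ ?_
    · intro e he
      obtain ⟨δ, hδ, hn⟩ := near gam hB.gcont s (e / 2) (by linarith)
      obtain ⟨s0, h0a, h0b⟩ := exists_rat_btwn (show s - δ < s by linarith)
      obtain ⟨s1, h1a, h1b⟩ := exists_rat_btwn h0b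
      obtain ⟨q, hqa, hqb⟩ := exists_rat_btwn (show (0 : ℝ) < e / 2 by linarith)
      have hg := hn s0 (by rw [abs_lt]; constructor <;> linarith)
      rw [abs_lt] at hg
      filter_upwards [l1 s0 s1 q h1a hqa (hB.glow _ (by linarith)), eventually_ge_atTop 1]
        with n hn1 hn2
      have h3 : few N n (dL s1 * Real.log n) ω ≤ few N n (dL s * Real.log n) ω :=
        few_mono N n (mul_le_mul_of_nonneg_right (hA.mono.monotone h1b.le) (lognn n hn2)) ω
      calc (n : ℝ) ^ (2 - gam s - e) ≤ (n : ℝ) ^ (2 - gam s0 - q) :=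
            Real.rpow_le_rpow_of_exponent_le (by exact_mod_cast hn2) (by linarith)
        _ ≤ _ := hn1
        _ ≤ _ := by exact_mod_cast h3
    · intro e he
      obtain ⟨δ, hδ, hn⟩ := near gam hB.gcont s (e / 2) (by linarith)
      obtain ⟨s', ha, hb⟩ := exists_rat_btwn (show s < min 0 (s + δ) by
        rw [lt_min_iff]; constructor <;> linarith)
      rw [lt_min_iff] at hb
      obtain ⟨q, hqa, hqb⟩ := exists_rat_btwn (show (0 : ℝ) < e / 2 by linarith)
      have hg := hn s' (by rw [abs_lt]; constructor <;> linarith)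
      rw [abs_lt] at hg
      filter_upwards [u1 s' q hb.1.le hqa, eventually_ge_atTop 1] with n hn1 hn2
      have h3 : few N n (dL s * Real.log n) ω ≤ few N n (dL s' * Real.log n) ω :=
        few_mono N n (mul_le_mul_of_nonneg_right (hA.mono.monotone ha.le) (lognn n hn2)) ω
      calc ((few N n (dL s * Real.log n) ω : ℕ) : ℝ) ≤ (few N n (dL s' * Real.log n) ω : ℕ) := by
            exact_mod_cast h3
        _ ≤ _ := hn1
        _ ≤ (n : ℝ) ^ (2 - gam s + e) :=
            Real.rpow_le_rpow_of_exponent_le (by exact_mod_cast hn2) (by linarith)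
  · -- many
    intro ν hν0 hν
    obtain ⟨s, rfl⟩ := hB.surj ν (by
      refine lt_trans ?_ hν0
      unfold nuc
      positivity)
    have hs : 0 < s := by
      rw [← hA.typ] at hν0
      exact hA.mono.lt_iff_lt.1 hν0
    have hs2 : s < ss := hA.mono.lt_iff_lt.1 hν
    rw [hB.rate]
    refine lim_log (fun n => many N n (dL s * Real.log n) ω) _ ?_ ?_
    · intro e he
      obtain ⟨δ, hδ, hn⟩ := near gam hB.gcont s (e / 2) (by linarith)
      obtain ⟨s0, h0a, h0b⟩ := exists_rat_btwn (show s < min ss (s + δ) by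
        rw [lt_min_iff]; constructor <;> linarith)
      rw [lt_min_iff] at h0b
      obtain ⟨s1, h1a, h1b⟩ := exists_rat_btwn h0a
      obtain ⟨q, hqa, hqb⟩ := exists_rat_btwn (show (0 : ℝ) < e / 2 by linarith)
      have hg := hn s0 (by rw [abs_lt]; constructor <;> linarith)
      rw [abs_lt] at hg
      have hg2 : gam s0 < 2 := by
        rw [← hss2]
        exact hB.gpos (Set.mem_Ici.2 (by linarith)) (Set.mem_Ici.2 hss0.le) h0b.1
      filter_upwards [l2 s1 s0 q h1b hqa hg2, eventually_ge_atTop 1] with n hn1 hn2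
      have h3 : many N n (dL s1 * Real.log n) ω ≤ many N n (dL s * Real.log n) ω :=
        many_anti N n (mul_le_mul_of_nonneg_right (hA.mono.monotone h1a.le) (lognn n hn2)) ω
      calc (n : ℝ) ^ (2 - gam s - e) ≤ (n : ℝ) ^ (2 - gam s0 - q) :=
            Real.rpow_le_rpow_of_exponent_le (by exact_mod_cast hn2) (by linarith)
        _ ≤ _ := hn1
        _ ≤ _ := by exact_mod_cast h3
    · intro e he
      obtain ⟨δ, hδ, hn⟩ := near gam hB.gcont s (e / 2) (by linarith)
      obtain ⟨s', ha, hb⟩ := exists_rat_btwn (show max 0 (s - δ) < s by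
        rw [max_lt_iff]; constructor <;> linarith)
      rw [max_lt_iff] at ha
      obtain ⟨q, hqa, hqb⟩ := exists_rat_btwn (show (0 : ℝ) < e / 2 by linarith)
      have hg := hn s' (by rw [abs_lt]; constructor <;> linarith)
      rw [abs_lt] at hg
      filter_upwards [u2 s' q ha.1.le hqa, eventually_ge_atTop 1] with n hn1 hn2
      have h3 : many N n (dL s * Real.log n) ω ≤ many N n (dL s' * Real.log n) ω :=
        many_anti N n (mul_le_mul_of_nonneg_right (hA.mono.monotone hb.le) (lognn n hn2)) ω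
      calc ((many N n (dL s * Real.log n) ω : ℕ) : ℝ) ≤
            (many N n (dL s' * Real.log n) ω : ℕ) := by exact_mod_cast h3
        _ ≤ _ := hn1
        _ ≤ (n : ℝ) ^ (2 - gam s + e) :=
            Real.rpow_le_rpow_of_exponent_le (by exact_mod_cast hn2) (by linarith)
  · -- maximum
    rw [tendsto_order]
    constructor
    · intro a ha
      obtain ⟨δ, hδ, hn⟩ := near dL hA.cont ss (dL ss - a) (by linarith)
      obtain ⟨s1, h1a, h1b⟩ := exists_rat_btwn (show max 0 (ss - δ) < ss by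
        rw [max_lt_iff]; constructor <;> linarith)
      rw [max_lt_iff] at h1a
      obtain ⟨s0, h0a, h0b⟩ := exists_rat_btwn h1b
      have hg := hn s1 (by rw [abs_lt]; constructor <;> linarith)
      rw [abs_lt] at hg
      have hg2 : gam s0 < 2 := by
        rw [← hss2]
        exact hB.gpos (Set.mem_Ici.2 (by linarith)) (Set.mem_Ici.2 hss0.le) h0b
      obtain ⟨q, hqa, hqb⟩ := exists_rat_btwn (show (0 : ℝ) < 2 - gam s0 by linarith)
      filter_upwards [l2 s1 s0 q h0a hqa hg2, eventually_ge_atTop 2] with n hn1 hn2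
      have hn2' : (2 : ℝ) ≤ n := by exact_mod_cast hn2
      have hlog : 0 < Real.log n := Real.log_pos (by linarith)
      have h1 : (0 : ℝ) < (many N n (dL s1 * Real.log n) ω : ℝ) :=
        lt_of_lt_of_le (Real.rpow_pos_of_pos (by linarith) _) hn1
      have h2 : 0 < many N n (dL s1 * Real.log n) ω := by exact_mod_cast h1
      unfold many at h2
      rw [Finset.card_pos] at h2
      obtain ⟨v, hv⟩ := h2
      rw [Finset.mem_filter] at hv
      have h3 : lay N n v ω ≤ (vb n).sup (fun v => lay N n v ω) :=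
        Finset.le_sup (f := fun v => lay N n v ω) hv.1
      have h4 : (lay N n v ω : ℝ) ≤ (((vb n).sup (fun v => lay N n v ω) : ℕ) : ℝ) := by
        exact_mod_cast h3
      rw [lt_div_iff₀ hlog]
      have h5 : a * Real.log n < dL s1 * Real.log n :=
        mul_lt_mul_of_pos_right (by linarith) hlog
      linarith [hv.2]
    · intro a ha
      obtain ⟨δ, hδ, hn⟩ := near dL hA.cont ss (a - dL ss) (by linarith)
      obtain ⟨s, hsa, hsb⟩ := exists_rat_btwn (show ss < ss + δ by linarith)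
      have hg := hn s (by rw [abs_lt]; constructor <;> linarith)
      rw [abs_lt] at hg
      have hg2 : 2 < gam s := by
        rw [← hss2]
        exact hB.gpos (Set.mem_Ici.2 hss0.le) (Set.mem_Ici.2 (by linarith)) hsa
      obtain ⟨q, hqa, hqb⟩ := exists_rat_btwn (show (0 : ℝ) < gam s - 2 by linarith)
      filter_upwards [u2 s q (by linarith) hqa, eventually_ge_atTop 2] with n hn1 hn2
      have hn2' : (2 : ℝ) ≤ n := by exact_mod_cast hn2
      have hlog : 0 < Real.log n := Real.log_pos (by linarith)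
      have h1 : (many N n (dL s * Real.log n) ω : ℝ) < 1 :=
        lt_of_le_of_lt hn1 (Real.rpow_lt_one_of_one_lt_of_neg (by linarith) (by linarith))
      have h2 : many N n (dL s * Real.log n) ω = 0 := by
        have : many N n (dL s * Real.log n) ω < 1 := by exact_mod_cast h1
        omega
      unfold many at h2
      rw [Finset.card_eq_zero, Finset.filter_eq_empty_iff] at h2
      have hne : (vb n).Nonempty := by
        refine ⟨(0, 0), ?_⟩
        unfold vb
        simp
      obtain ⟨v, hv, hv2⟩ := Finset.exists_mem_eq_sup (vb n) hne (fun v => lay N n v ω)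
      have h3 := h2 hv
      rw [not_le] at h3
      rw [hv2, div_lt_iff₀ hlog]
      have h5 : dL s * Real.log n < a * Real.log n :=
        mul_lt_mul_of_pos_right (by linarith) hlog
      linarith

end Pool.Agent.W565.EN
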